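import Pool.Agent.R725.Monomial

set_option autoImplicit false

/-!
# MP_a1df92_al: a Lie power which is neither completely reducible nor uniserial

Let `F` be the field with four elements, `V = F ^ 2` and let `H` be the group of monomial matrices,
a maximal subgroup of `GL(V)`. The irreducible `GL(V)`-submodules of `L^k V` for `k ≤ 4` remain
irreducible for `H`, but `L^5 V` has an irreducible `GL(V)`-submodule (a Steinberg module) which
does not. As an `H`-module `L^5 V` is neither completely reducible nor uniserial.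
-/

namespace Pool.Agent.Results.MP_a1df92_al.NotUniserial

open TensorAlgebra

universe u v

section defs

variable (F : Type u) [Field F] (V : Type v) [AddCommGroup V] [Module F V]

/-- The `k`-th Lie power `L^k V` inside the tensor algebra `T(V)`: `L^1 V = V`, and `L^(k+1) V` is
spanned by the commutators `[y, v] = y v - v y` with `y ∈ L^k V`, `v ∈ V`. So `L^k V` is the span of
all left-normed brackets `[v₁, …, v_k]`. (The value at `0` is not used.) -/
def LiePow : ℕ → Submodule F (TensorAlgebra F V)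
  | 0 => ⊥
  | 1 => LinearMap.range (ι F : V →ₗ[F] TensorAlgebra F V)
  | (k + 2) => Submodule.span F {z | ∃ y ∈ LiePow (k + 1), ∃ v : V, z = y * ι F v - ι F v * y}

variable {F V}

/-- The action of `g ∈ GL(V)` on the tensor algebra, by the algebra automorphism extending `g`. -/
noncomputable def act (g : LinearMap.GeneralLinearGroup F V) :
    TensorAlgebra F V →ₐ[F] TensorAlgebra F V :=
  lift F ((ι F : V →ₗ[F] TensorAlgebra F V) ∘ₗ (g : V →ₗ[F] V))

/-- A subspace of `T(V)` is stable under the subgroup `K` of `GL(V)`. -/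
def IsStable (K : Subgroup (LinearMap.GeneralLinearGroup F V))
    (W : Submodule F (TensorAlgebra F V)) : Prop :=
  ∀ g ∈ K, ∀ x ∈ W, act g x ∈ W

/-- `W` is an irreducible `FK`-submodule. -/
def IsIrred (K : Subgroup (LinearMap.GeneralLinearGroup F V))
    (W : Submodule F (TensorAlgebra F V)) : Prop :=
  IsStable K W ∧ W ≠ ⊥ ∧ ∀ U ≤ W, IsStable K U → U = ⊥ ∨ U = W

/-- The condition `(∗_n)`: for `1 ≤ k ≤ n - 1` every irreducible `F GL(V)`-submodule of `L^k V`
remains irreducible when restricted to `H`. -/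
def Star (H : Subgroup (LinearMap.GeneralLinearGroup F V)) (n : ℕ) : Prop :=
  ∀ k : ℕ, 1 ≤ k → k + 1 ≤ n → ∀ W ≤ LiePow F V k, IsIrred ⊤ W → IsIrred H W

/-- `X` is completely reducible as an `FK`-module: it is the direct sum of a family of irreducible
`FK`-submodules. -/
def CompletelyReducible (K : Subgroup (LinearMap.GeneralLinearGroup F V))
    (X : Submodule F (TensorAlgebra F V)) : Prop :=
  ∃ I : Set (Submodule F (TensorAlgebra F V)), (∀ S ∈ I, IsIrred K S) ∧ sSupIndep I ∧ sSup I = X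

/-- `X` is uniserial as an `FK`-module: its submodules form a chain. -/
def Uniserial (K : Subgroup (LinearMap.GeneralLinearGroup F V))
    (X : Submodule F (TensorAlgebra F V)) : Prop :=
  ∀ U ≤ X, ∀ W ≤ X, IsStable K U → IsStable K W → U ≤ W ∨ W ≤ U

end defs

section general

variable {F : Type u} [Field F] {V : Type v} [AddCommGroup V] [Module F V]

@[simp] theorem act_ι (g : LinearMap.GeneralLinearGroup F V) (x : V) :
    act g (ι F x) = ι F ((g : V →ₗ[F] V) x) := by
  simp [act]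

theorem act_mul (g h : LinearMap.GeneralLinearGroup F V) (x : TensorAlgebra F V) :
    act (g * h) x = act g (act h x) := by
  have : act (g * h) = (act g).comp (act h) := by
    apply TensorAlgebra.hom_ext
    ext v
    simp [act]
  rw [this]
  rfl

theorem mem_two (x : TensorAlgebra F V) (v : V) (k : ℕ) (hx : x ∈ LiePow F V (k + 1)) :
    x * ι F v - ι F v * x ∈ LiePow F V (k + 2) :=
  Submodule.subset_span ⟨x, hx, v, rfl⟩

end general

section concrete

open Pool.Agent.R725.Mono

variable {F : Type u} [Field F]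

/-- the two generators and the brackets used below -/
noncomputable def X (F : Type u) [Field F] : TensorAlgebra F (Fin 2 → F) := ι F (Pi.single 0 1)
noncomputable def Y (F : Type u) [Field F] : TensorAlgebra F (Fin 2 → F) := ι F (Pi.single 1 1)
noncomputable def c (F : Type u) [Field F] := X F * Y F - Y F * X F
noncomputable def f0 (F : Type u) [Field F] := c F * X F - X F * c F
noncomputable def f1 (F : Type u) [Field F] := c F * Y F - Y F * c F
noncomputable def p (F : Type u) [Field F] := f0 F * X F - X F * f0 F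
noncomputable def q (F : Type u) [Field F] := f0 F * Y F - Y F * f0 F
noncomputable def r (F : Type u) [Field F] := f1 F * Y F - Y F * f1 F
noncomputable def s0 (F : Type u) [Field F] := p F * X F - X F * p F
noncomputable def s1 (F : Type u) [Field F] := p F * Y F - Y F * p F
noncomputable def s2 (F : Type u) [Field F] := r F * X F - X F * r F
noncomputable def s3 (F : Type u) [Field F] := r F * Y F - Y F * r F

theorem q_eq : f1 F * X F - X F * f1 F = q F := by
  simp only [q, f0, f1, c]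
  noncomm_ring

theorem ι_eq (v : Fin 2 → F) : ι F v = v 0 • X F + v 1 • Y F := by
  have : v = v 0 • (Pi.single 0 1 : Fin 2 → F) + v 1 • (Pi.single 1 1 : Fin 2 → F) := by
    funext i
    fin_cases i <;> simp
  conv_lhs => rw [this]
  rw [map_add, map_smul, map_smul]
  rfl

/-- elements of `GL(F ^ 2)` from matrices -/
noncomputable def G (a b c d : F) (h : a * d - b * c ≠ 0) :
    LinearMap.GeneralLinearGroup F (Fin 2 → F) :=
  Matrix.GeneralLinearGroup.toLin (mk a b c d h)

theorem act_X (a b c d : F) (h : a * d - b * c ≠ 0) :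
    act (G a b c d h) (X F) = a • X F + c • Y F := by
  rw [X, act_ι, ι_eq]
  simp [G, Matrix.GeneralLinearGroup.coe_toLin, Matrix.mulVec, dotProduct, Fin.sum_univ_two, X]

theorem act_Y (a b c d : F) (h : a * d - b * c ≠ 0) :
    act (G a b c d h) (Y F) = b • X F + d • Y F := by
  rw [Y, act_ι, ι_eq]
  simp [G, Matrix.GeneralLinearGroup.coe_toLin, Matrix.mulVec, dotProduct, Fin.sum_univ_two, Y]

theorem exists_G (g : LinearMap.GeneralLinearGroup F (Fin 2 → F)) :
    ∃ (a b c d : F) (h : a * d - b * c ≠ 0), g = G a b c d h := by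
  obtain ⟨a, b, c, d, h, e⟩ := exists_mk (Matrix.GeneralLinearGroup.toLin.symm g)
  exact ⟨a, b, c, d, h, by rw [G, ← e, MulEquiv.apply_symm_apply]⟩

theorem G_mul (a b c d a' b' c' d' : F) (h : a * d - b * c ≠ 0) (h' : a' * d' - b' * c' ≠ 0) :
    G a b c d h * G a' b' c' d' h' = G (a * a' + b * c') (a * b' + b * d')
      (c * a' + d * c') (c * b' + d * d') (by
        have e : (a * a' + b * c') * (c * b' + d * d') - (a * b' + b * d') * (c * a' + d * c') =
          (a * d - b * c) * (a' * d' - b' * c') := by ring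
        rw [e]; exact mul_ne_zero h h') := by
  simp only [G]
  rw [← map_mul, mk_mul]

/-- the group of monomial transformations of `F ^ 2` -/
noncomputable def H (F : Type u) [Field F] :
    Subgroup (LinearMap.GeneralLinearGroup F (Fin 2 → F)) :=
  (monomial F).map (Matrix.GeneralLinearGroup.toLin : GL (Fin 2) F ≃* _).toMonoidHom

theorem mem_H (a b c d : F) (h : a * d - b * c ≠ 0) :
    G a b c d h ∈ H F ↔ (b = 0 ∧ c = 0) ∨ (a = 0 ∧ d = 0) := by
  rw [H, Subgroup.mem_map_equiv]
  simp only [G, MulEquiv.symm_apply_apply]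
  exact mem_monomial _

theorem isCoatom_H [CharP F 2] : IsCoatom (H F) := by
  have h := (OrderIso.isCoatom_iff
    (MulEquiv.mapSubgroup (Matrix.GeneralLinearGroup.toLin : GL (Fin 2) F ≃* _)) (monomial F)).2
    isCoatom_monomial
  exact h


/-- bilinearity of the commutator -/
theorem br_lin {A : Type*} [Ring A] [Algebra F A] (u v x y : A) (α β γ δ : F) :
    (α • u + β • v) * (γ • x + δ • y) - (γ • x + δ • y) * (α • u + β • v) =
      (α * γ) • (u * x - x * u) + (α * δ) • (u * y - y * u) +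
      (β * γ) • (v * x - x * v) + (β * δ) • (v * y - y * v) := by
  simp only [mul_add, add_mul, mul_smul_comm, smul_mul_assoc]
  module

theorem act_c (a b c' d : F) (h : a * d - b * c' ≠ 0) :
    act (G a b c' d h) (c F) = (a * d - b * c') • c F := by
  rw [c, map_sub, map_mul, map_mul, act_X, act_Y, br_lin]
  module

theorem act_f0 (a b c' d : F) (h : a * d - b * c' ≠ 0) :
    act (G a b c' d h) (f0 F) = ((a * d - b * c') * a) • f0 F + ((a * d - b * c') * c') • f1 F := by
  rw [f0, map_sub, map_mul, map_mul, act_X, act_c]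
  have e := br_lin (c F) 0 (X F) (Y F) (a * d - b * c') 0 a c'
  simp only [smul_zero, add_zero, zero_mul, mul_zero, sub_zero] at e
  rw [e]
  rfl

theorem act_f1 (a b c' d : F) (h : a * d - b * c' ≠ 0) :
    act (G a b c' d h) (f1 F) = ((a * d - b * c') * b) • f0 F + ((a * d - b * c') * d) • f1 F := by
  rw [f1, map_sub, map_mul, map_mul, act_Y, act_c]
  have e := br_lin (c F) 0 (X F) (Y F) (a * d - b * c') 0 b d
  simp only [smul_zero, add_zero, zero_mul, mul_zero, sub_zero] at e
  rw [e]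
  rfl

theorem br4 (α β γ δ : F) : (α • f0 F + β • f1 F) * (γ • X F + δ • Y F) -
    (γ • X F + δ • Y F) * (α • f0 F + β • f1 F) =
      (α * γ) • p F + (α * δ + β * γ) • q F + (β * δ) • r F := by
  rw [br_lin, q_eq, p, q, r]
  module

theorem br5 (α β γ δ : F) : (α • p F + β • r F) * (γ • X F + δ • Y F) -
    (γ • X F + δ • Y F) * (α • p F + β • r F) =
      (α * γ) • s0 F + (α * δ) • s1 F + (β * γ) • s2 F + (β * δ) • s3 F := by
  rw [br_lin, s0, s1, s2, s3]

theorem act_q (a b c' d : F) (h : a * d - b * c' ≠ 0) :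
    act (G a b c' d h) (q F) = (a * d - b * c') • ((a * b) • p F + (a * d + c' * b) • q F +
      (c' * d) • r F) := by
  have e : q F = f0 F * Y F - Y F * f0 F := rfl
  rw [e, map_sub, map_mul, map_mul, act_Y, act_f0, br4, smul_add, smul_add, smul_smul, smul_smul,
    smul_smul, ← e]
  congr 2 <;> ring_nf

section char2

variable [CharP F 2]

theorem two0 : (2 : F) = 0 := by exact_mod_cast CharP.cast_eq_zero F 2

theorem act_p (a b c' d : F) (h : a * d - b * c' ≠ 0) :
    act (G a b c' d h) (p F) = (a * d - b * c') • ((a ^ 2) • p F + (c' ^ 2) • r F) := by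
  have e : p F = f0 F * X F - X F * f0 F := rfl
  rw [e, map_sub, map_mul, map_mul, act_X, act_f0, br4, smul_add, smul_smul, smul_smul, ← e]
  have e2 : (a * d - b * c') * a * c' + (a * d - b * c') * c' * a = 0 := by
    linear_combination (a * d - b * c') * a * c' * two0 (F := F)
  rw [e2, zero_smul, add_zero]
  congr 2 <;> ring

theorem act_r (a b c' d : F) (h : a * d - b * c' ≠ 0) :
    act (G a b c' d h) (r F) = (a * d - b * c') • ((b ^ 2) • p F + (d ^ 2) • r F) := by
  have e : r F = f1 F * Y F - Y F * f1 F := rfl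
  rw [e, map_sub, map_mul, map_mul, act_Y, act_f1, br4, smul_add, smul_smul, smul_smul, ← e]
  have e2 : (a * d - b * c') * b * d + (a * d - b * c') * d * b = 0 := by
    linear_combination (a * d - b * c') * b * d * two0 (F := F)
  rw [e2, zero_smul, add_zero]
  congr 2 <;> ring

theorem act_s0 (a b c' d : F) (h : a * d - b * c' ≠ 0) :
    act (G a b c' d h) (s0 F) = (a * d - b * c') • ((a ^ 2 * a) • s0 F + (a ^ 2 * c') • s1 F +
      (c' ^ 2 * a) • s2 F + (c' ^ 2 * c') • s3 F) := by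
  have e : s0 F = p F * X F - X F * p F := rfl
  rw [e, map_sub, map_mul, map_mul, act_X, act_p, smul_mul_assoc, mul_smul_comm, ← smul_sub,
    br5, ← e]

theorem act_s1 (a b c' d : F) (h : a * d - b * c' ≠ 0) :
    act (G a b c' d h) (s1 F) = (a * d - b * c') • ((a ^ 2 * b) • s0 F + (a ^ 2 * d) • s1 F +
      (c' ^ 2 * b) • s2 F + (c' ^ 2 * d) • s3 F) := by
  have e : s1 F = p F * Y F - Y F * p F := rfl
  rw [e, map_sub, map_mul, map_mul, act_Y, act_p, smul_mul_assoc, mul_smul_comm, ← smul_sub,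
    br5, ← e]

theorem act_s2 (a b c' d : F) (h : a * d - b * c' ≠ 0) :
    act (G a b c' d h) (s2 F) = (a * d - b * c') • ((b ^ 2 * a) • s0 F + (b ^ 2 * c') • s1 F +
      (d ^ 2 * a) • s2 F + (d ^ 2 * c') • s3 F) := by
  have e : s2 F = r F * X F - X F * r F := rfl
  rw [e, map_sub, map_mul, map_mul, act_X, act_r, smul_mul_assoc, mul_smul_comm, ← smul_sub,
    br5, ← e]

theorem act_s3 (a b c' d : F) (h : a * d - b * c' ≠ 0) :
    act (G a b c' d h) (s3 F) = (a * d - b * c') • ((b ^ 2 * b) • s0 F + (b ^ 2 * d) • s1 F +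
      (d ^ 2 * b) • s2 F + (d ^ 2 * d) • s3 F) := by
  have e : s3 F = r F * Y F - Y F * r F := rfl
  rw [e, map_sub, map_mul, map_mul, act_Y, act_r, smul_mul_assoc, mul_smul_comm, ← smul_sub,
    br5, ← e]


/-- a two-dimensional representation detecting `s3` -/
noncomputable def rep (F : Type u) [Field F] :
    TensorAlgebra F (Fin 2 → F) →ₐ[F] Matrix (Fin 2) (Fin 2) F :=
  lift F (LinearMap.toSpanSingleton F _ (!![0, 1; 0, 0] : Matrix (Fin 2) (Fin 2) F) ∘ₗ
      LinearMap.proj 0 +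
    LinearMap.toSpanSingleton F _ (!![1, 0; 0, 0] : Matrix (Fin 2) (Fin 2) F) ∘ₗ
      LinearMap.proj 1)

omit [CharP F 2] in
theorem rep_X : rep F (X F) = !![0, 1; 0, 0] := by
  simp [rep, X]

omit [CharP F 2] in
theorem rep_Y : rep F (Y F) = !![1, 0; 0, 0] := by
  simp [rep, Y]

omit [CharP F 2] in
theorem s3_ne : s3 F ≠ 0 := by
  intro h
  have h1 := congrArg (rep F) h
  simp only [s3, r, f1, c, map_sub, map_mul, rep_X, rep_Y, map_zero] at h1
  have h2 := congrFun (congrFun h1 0) 1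
  simp at h2

omit [CharP F 2] in
theorem r_ne : r F ≠ 0 := fun h => s3_ne (by rw [s3, h, zero_mul, mul_zero, sub_zero])
omit [CharP F 2] in
theorem f1_ne : f1 F ≠ 0 := fun h => r_ne (by rw [r, h, zero_mul, mul_zero, sub_zero])
omit [CharP F 2] in
theorem c_ne : c F ≠ 0 := fun h => f1_ne (by rw [f1, h, zero_mul, mul_zero, sub_zero])

omit [CharP F 2] in
theorem mem4 (x : TensorAlgebra F (Fin 2 → F)) :
    x ∈ Submodule.span F {s0 F, s1 F, s2 F, s3 F} ↔
      ∃ a b c d : F, x = a • s0 F + b • s1 F + c • s2 F + d • s3 F := by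
  rw [Submodule.mem_span_insert]
  constructor
  · rintro ⟨a, z, hz, rfl⟩
    rw [Submodule.mem_span_triple] at hz
    obtain ⟨b, c, d, rfl⟩ := hz
    exact ⟨a, b, c, d, by abel⟩
  · rintro ⟨a, b, c, d, rfl⟩
    refine ⟨a, b • s1 F + c • s2 F + d • s3 F, ?_, by abel⟩
    rw [Submodule.mem_span_triple]
    exact ⟨b, c, d, rfl⟩

/-- lower unitriangular elements -/
noncomputable def u (t : F) : LinearMap.GeneralLinearGroup F (Fin 2 → F) :=
  G 1 0 t 1 (by simp)

theorem u_s0 (t : F) : act (u t) (s0 F) = s0 F + t • s1 F + t ^ 2 • s2 F + t ^ 3 • s3 F := by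
  rw [u, act_s0]
  simp [pow_succ]

theorem u_s1 (t : F) : act (u t) (s1 F) = s1 F + t ^ 2 • s3 F := by
  rw [u, act_s1]
  simp

theorem u_s2 (t : F) : act (u t) (s2 F) = s2 F + t • s3 F := by
  rw [u, act_s2]
  simp

theorem u_s3 (t : F) : act (u t) (s3 F) = s3 F := by
  rw [u, act_s3]
  simp

theorem u_lin (t a b c d : F) :
    act (u t) (a • s0 F + b • s1 F + c • s2 F + d • s3 F) - (a • s0 F + b • s1 F + c • s2 F + d • s3 F) =
      t • (a • s1 F) + t ^ 2 • (a • s2 F) + t ^ 3 • (a • s3 F) + t ^ 2 • (b • s3 F) +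
        t • (c • s3 F) := by
  simp only [map_add, map_smul, u_s0, u_s1, u_s2, u_s3]
  module

/-- the coordinate swap -/
noncomputable def sw : LinearMap.GeneralLinearGroup F (Fin 2 → F) :=
  G 0 1 1 0 (by simp)

theorem neg1 : (-1 : F) = 1 := by
  linear_combination -two0 (F := F)

omit [CharP F 2] in
theorem sw_X : act sw (X F) = Y F := by rw [sw, act_X]; simp
omit [CharP F 2] in
theorem sw_Y : act sw (Y F) = X F := by rw [sw, act_Y]; simp
theorem sw_f0 : act sw (f0 F) = f1 F := by rw [sw, act_f0]; simp [neg1]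
theorem sw_f1 : act sw (f1 F) = f0 F := by rw [sw, act_f1]; simp [neg1]
theorem sw_p : act sw (p F) = r F := by rw [sw, act_p]; simp [neg1]
theorem sw_r : act sw (r F) = p F := by rw [sw, act_r]; simp [neg1]
theorem sw_s0 : act sw (s0 F) = s3 F := by rw [sw, act_s0]; simp [neg1]
theorem sw_s1 : act sw (s1 F) = s2 F := by rw [sw, act_s1]; simp [neg1]
theorem sw_s2 : act sw (s2 F) = s1 F := by rw [sw, act_s2]; simp [neg1]
theorem sw_s3 : act sw (s3 F) = s0 F := by rw [sw, act_s3]; simp [neg1]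

omit [CharP F 2] in
theorem sw_mem : sw ∈ H F := (mem_H _ _ _ _ _).2 (Or.inr ⟨rfl, rfl⟩)


theorem p_ne : p F ≠ 0 := by
  intro h
  apply r_ne (F := F)
  rw [← sw_p, h, map_zero]

omit [CharP F 2] in
theorem X_ne : X F ≠ 0 := by
  intro h
  have h1 := congrArg (rep F) h
  rw [rep_X, map_zero] at h1
  have h2 := congrFun (congrFun h1 0) 1
  simp at h2

section four

variable {ω : F} (hω : ω ^ 2 + ω + 1 = 0)
include hω

omit [CharP F 2] in
theorem ω3 : ω ^ 3 = 1 := by linear_combination (ω - 1) * hω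

omit [CharP F 2] in
theorem ω0 : ω ≠ 0 := by
  rintro rfl
  simp at hω

theorem ω1 : ω ≠ 1 := by
  rintro rfl
  apply one_ne_zero (α := F)
  linear_combination hω - two0 (F := F)

theorem ω21 : ω ^ 2 ≠ 1 := by
  intro h
  exact ω0 hω (by linear_combination hω - h - two0 (F := F))

theorem sum_u (a b c d : F) (U : Submodule F (TensorAlgebra F (Fin 2 → F)))
    (hU : IsStable ⊤ U) (hx : a • s0 F + b • s1 F + c • s2 F + d • s3 F ∈ U) :
    a • s3 F ∈ U := by
  have h (t : F) : act (u t) (a • s0 F + b • s1 F + c • s2 F + d • s3 F) -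
      (a • s0 F + b • s1 F + c • s2 F + d • s3 F) ∈ U :=
    U.sub_mem (hU _ (Subgroup.mem_top _) _ hx) hx
  have h1 := U.add_mem (U.add_mem (h 1) (h ω)) (h (ω ^ 2))
  rw [u_lin, u_lin, u_lin] at h1
  have e4 : ω ^ 4 = ω := by linear_combination ω * ω3 hω
  have e6 : ω ^ 6 = 1 := by linear_combination (ω ^ 3 + 1) * ω3 hω
  have e : (1 : F) • a • s1 F + (1 : F) ^ 2 • a • s2 F + (1 : F) ^ 3 • a • s3 F +
      (1 : F) ^ 2 • b • s3 F + (1 : F) • c • s3 F +
      (ω • a • s1 F + ω ^ 2 • a • s2 F + ω ^ 3 • a • s3 F + ω ^ 2 • b • s3 F + ω • c • s3 F) +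
      (ω ^ 2 • a • s1 F + (ω ^ 2) ^ 2 • a • s2 F + (ω ^ 2) ^ 3 • a • s3 F +
        (ω ^ 2) ^ 2 • b • s3 F + ω ^ 2 • c • s3 F) =
      (ω ^ 2 + ω + 1) • a • s1 F + (ω ^ 4 + ω ^ 2 + 1) • a • s2 F +
      (ω ^ 6 + ω ^ 3 + 1) • a • s3 F + (ω ^ 4 + ω ^ 2 + 1) • b • s3 F +
      (ω ^ 2 + ω + 1) • c • s3 F := by module
  rw [e, e4, e6, ω3 hω, hω, show ω + ω ^ 2 + 1 = 0 by rw [← hω]; ring,
    show (1 : F) + 1 + 1 = 1 by linear_combination two0 (F := F)] at h1
  simpa using h1

/-- `at² + bt` is nonzero for some `t` unless `a = b = 0`. -/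
theorem exists_t (a b : F) (h : a ≠ 0 ∨ b ≠ 0) : ∃ t : F, t ^ 2 * a + t * b ≠ 0 := by
  by_contra hne
  push Not at hne
  have h1 := hne 1
  have h2 := hne ω
  have h3 : ω * (a * (ω - 1)) = 0 := by linear_combination h2 - ω * h1
  rcases mul_eq_zero.1 h3 with h4 | h4
  · exact ω0 hω h4
  · rcases mul_eq_zero.1 h4 with h5 | h5
    · rcases h with h | h
      · exact h h5
      · apply h
        linear_combination h1 - h5
    · exact ω1 hω (sub_eq_zero.1 h5)

theorem s3_mem (U : Submodule F (TensorAlgebra F (Fin 2 → F)))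
    (hU : IsStable ⊤ U) (hle : U ≤ Submodule.span F {s0 F, s1 F, s2 F, s3 F}) (hne : U ≠ ⊥) :
    s3 F ∈ U := by
  obtain ⟨x, hx, hx0⟩ := U.exists_mem_ne_zero_of_ne_bot hne
  obtain ⟨a, b, c, d, rfl⟩ := (mem4 x).1 (hle hx)
  by_cases ha : a = 0
  · subst ha
    by_cases hbc : b ≠ 0 ∨ c ≠ 0
    · obtain ⟨t, ht⟩ := exists_t hω b c hbc
      have h1 := U.sub_mem (hU (u t) (Subgroup.mem_top _) _ hx) hx
      rw [u_lin] at h1
      have e : t • (0 : F) • s1 F + t ^ 2 • (0 : F) • s2 F + t ^ 3 • (0 : F) • s3 F +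
          t ^ 2 • b • s3 F + t • c • s3 F = (t ^ 2 * b + t * c) • s3 F := by module
      rw [e] at h1
      exact (Submodule.smul_mem_iff U ht).1 h1
    · push Not at hbc
      obtain ⟨rfl, rfl⟩ := hbc
      simp only [zero_smul, zero_add] at hx hx0
      have hd : d ≠ 0 := fun hd => hx0 (by rw [hd, zero_smul])
      exact (Submodule.smul_mem_iff U hd).1 hx
  · exact (Submodule.smul_mem_iff U ha).1 (sum_u hω a b c d U hU hx)

theorem all_mem (U : Submodule F (TensorAlgebra F (Fin 2 → F)))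
    (hU : IsStable ⊤ U) (h3 : s3 F ∈ U) : Submodule.span F {s0 F, s1 F, s2 F, s3 F} ≤ U := by
  have h0 : s0 F ∈ U := by
    rw [← sw_s3]
    exact hU _ (Subgroup.mem_top _) _ h3
  have h (t : F) : t • s1 F + t ^ 2 • s2 F ∈ U := by
    have h1 := hU (u t) (Subgroup.mem_top _) _ h0
    rw [u_s0] at h1
    have h2 := U.sub_mem (U.sub_mem h1 h0) (U.smul_mem (t ^ 3) h3)
    have e : s0 F + t • s1 F + t ^ 2 • s2 F + t ^ 3 • s3 F - s0 F - t ^ 3 • s3 F =
      t • s1 F + t ^ 2 • s2 F := by module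
    rwa [e] at h2
  have h2 : s2 F ∈ U := by
    have h1 := U.sub_mem (h ω) (U.smul_mem ω (h 1))
    have e : ω • s1 F + ω ^ 2 • s2 F - ω • ((1 : F) • s1 F + (1 : F) ^ 2 • s2 F) =
      (ω ^ 2 - ω) • s2 F := by module
    rw [e] at h1
    refine (Submodule.smul_mem_iff U ?_).1 h1
    intro h0
    have : ω * (ω - 1) = 0 := by linear_combination h0
    rcases mul_eq_zero.1 this with h5 | h5
    · exact ω0 hω h5
    · exact ω1 hω (sub_eq_zero.1 h5)
  have h1 : s1 F ∈ U := by
    have h1 := U.sub_mem (h 1) h2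
    simpa using h1
  rw [Submodule.span_le]
  intro x hx
  simp only [Set.mem_insert_iff, Set.mem_singleton_iff] at hx
  rcases hx with rfl | rfl | rfl | rfl <;> assumption

omit hω in
theorem stable_W5 (K : Subgroup (LinearMap.GeneralLinearGroup F (Fin 2 → F))) :
    IsStable K (Submodule.span F {s0 F, s1 F, s2 F, s3 F}) := by
  intro g _ x hx
  obtain ⟨a, b, c', d, rfl⟩ := (mem4 x).1 hx
  obtain ⟨α, β, γ, δ, h, rfl⟩ := exists_G g
  have m0 : s0 F ∈ Submodule.span F {s0 F, s1 F, s2 F, s3 F} := Submodule.subset_span (by simp)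
  have m1 : s1 F ∈ Submodule.span F {s0 F, s1 F, s2 F, s3 F} := Submodule.subset_span (by simp)
  have m2 : s2 F ∈ Submodule.span F {s0 F, s1 F, s2 F, s3 F} := Submodule.subset_span (by simp)
  have m3 : s3 F ∈ Submodule.span F {s0 F, s1 F, s2 F, s3 F} := Submodule.subset_span (by simp)
  have key (x1 x2 x3 x4 y : F) : y • (x1 • s0 F + x2 • s1 F + x3 • s2 F + x4 • s3 F) ∈
      Submodule.span F {s0 F, s1 F, s2 F, s3 F} :=
    Submodule.smul_mem _ _ (Submodule.add_mem _ (Submodule.add_mem _ (Submodule.add_mem _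
      (Submodule.smul_mem _ _ m0) (Submodule.smul_mem _ _ m1)) (Submodule.smul_mem _ _ m2))
      (Submodule.smul_mem _ _ m3))
  simp only [map_add, map_smul, act_s0, act_s1, act_s2, act_s3]
  exact Submodule.add_mem _ (Submodule.add_mem _ (Submodule.add_mem _
      (Submodule.smul_mem _ _ (key _ _ _ _ _)) (Submodule.smul_mem _ _ (key _ _ _ _ _)))
      (Submodule.smul_mem _ _ (key _ _ _ _ _))) (Submodule.smul_mem _ _ (key _ _ _ _ _))

theorem irred_W5 : IsIrred ⊤ (Submodule.span F {s0 F, s1 F, s2 F, s3 F}) := by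
  refine ⟨stable_W5 _, ?_, ?_⟩
  · intro h
    have m3 : s3 F ∈ Submodule.span F {s0 F, s1 F, s2 F, s3 F} := Submodule.subset_span (by simp)
    rw [h, Submodule.mem_bot] at m3
    exact s3_ne m3
  · intro U hle hU
    by_cases hne : U = ⊥
    · exact Or.inl hne
    · exact Or.inr (le_antisymm hle (all_mem hω U hU (s3_mem hω U hU hle hne)))

/-- The linear independence statements that are needed. -/
theorem coeff_a (a b c d : F) (h : a • s0 F + b • s1 F + c • s2 F + d • s3 F = 0) : a = 0 := by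
  have := sum_u hω a b c d ⊥ (fun g _ x hx => by
    rw [Submodule.mem_bot] at hx ⊢; rw [hx, map_zero]) (by rw [h]; exact Submodule.zero_mem _)
  rw [Submodule.mem_bot] at this
  exact (smul_eq_zero.1 this).resolve_right s3_ne

theorem coeff_bc (a b c d : F) (h : a • s0 F + b • s1 F + c • s2 F + d • s3 F = 0) :
    a = 0 ∧ b = 0 ∧ c = 0 ∧ d = 0 := by
  have ha := coeff_a hω a b c d h
  subst ha
  have hbc : b = 0 ∧ c = 0 := by
    by_contra hne
    rw [not_and_or] at hne
    obtain ⟨t, ht⟩ := exists_t hω b c hne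
    have h1 := u_lin t 0 b c d
    rw [h, map_zero] at h1
    have e : t • (0 : F) • s1 F + t ^ 2 • (0 : F) • s2 F + t ^ 3 • (0 : F) • s3 F +
          t ^ 2 • b • s3 F + t • c • s3 F = (t ^ 2 * b + t * c) • s3 F := by module
    rw [e, sub_zero] at h1
    exact ht ((smul_eq_zero.1 h1.symm).resolve_right s3_ne)
  obtain ⟨rfl, rfl⟩ := hbc
  simp only [zero_smul, zero_add] at h
  exact ⟨rfl, rfl, rfl, (smul_eq_zero.1 h).resolve_right s3_ne⟩


omit [CharP F 2] hω in
/-- a submodule criterion for two-dimensional spaces swapped by the coordinate swap -/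
theorem two_dim (g : LinearMap.GeneralLinearGroup F (Fin 2 → F)) (hg : g ∈ H F)
    (a b : TensorAlgebra F (Fin 2 → F)) (α β : F) (hαβ : α ≠ β)
    (ha : act g a = α • a) (hb : act g b = β • b) (hab : act sw a = b) (hba : act sw b = a)
    (U : Submodule F (TensorAlgebra F (Fin 2 → F))) (hU : IsStable (H F) U)
    (hle : U ≤ Submodule.span F {a, b}) (hne : U ≠ ⊥) : Submodule.span F {a, b} ≤ U := by
  obtain ⟨x, hx, hx0⟩ := U.exists_mem_ne_zero_of_ne_bot hne
  obtain ⟨s, t, rfl⟩ := Submodule.mem_span_pair.1 (hle hx)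
  have hgx := hU g hg _ hx
  rw [map_add, map_smul, map_smul, ha, hb] at hgx
  have key : a ∈ U ∧ b ∈ U := by
    by_cases hs : s = 0
    · subst hs
      simp only [zero_smul, zero_add] at hx hx0
      have ht : t ≠ 0 := fun ht => hx0 (by rw [ht, zero_smul])
      have hbU : b ∈ U := (Submodule.smul_mem_iff U ht).1 hx
      refine ⟨?_, hbU⟩
      rw [← hba]
      exact hU _ sw_mem _ hbU
    · have h1 := U.sub_mem hgx (U.smul_mem β hx)
      have e : s • α • a + t • β • b - β • (s • a + t • b) = (s * (α - β)) • a := by module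
      rw [e] at h1
      have haU : a ∈ U := (Submodule.smul_mem_iff U (mul_ne_zero hs (sub_ne_zero.2 hαβ))).1 h1
      refine ⟨haU, ?_⟩
      rw [← hab]
      exact hU _ sw_mem _ haU
  rw [Submodule.span_le]
  intro z hz
  simp only [Set.mem_insert_iff, Set.mem_singleton_iff] at hz
  rcases hz with rfl | rfl
  · exact key.1
  · exact key.2

/-- `diag(ω, 1)` -/
noncomputable def Dg (ω : F) (hω : ω ^ 2 + ω + 1 = 0) :
    LinearMap.GeneralLinearGroup F (Fin 2 → F) := G ω 0 0 1 (by simpa using ω0 hω)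

omit [CharP F 2] in
theorem Dg_mem : Dg ω hω ∈ H F := (mem_H _ _ _ _ _).2 (Or.inl ⟨rfl, rfl⟩)

omit hω [CharP F 2] in
theorem L1 : LiePow F (Fin 2 → F) 1 = Submodule.span F {X F, Y F} := by
  apply le_antisymm
  · rintro _ ⟨v, rfl⟩
    rw [ι_eq]
    exact Submodule.mem_span_pair.2 ⟨_, _, rfl⟩
  · rw [Submodule.span_le]
    intro z hz
    simp only [Set.mem_insert_iff, Set.mem_singleton_iff] at hz
    rcases hz with rfl | rfl
    · exact ⟨_, rfl⟩
    · exact ⟨_, rfl⟩

omit hω [CharP F 2] in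
theorem L2 : LiePow F (Fin 2 → F) 2 ≤ Submodule.span F {c F} := by
  rw [LiePow, Submodule.span_le]
  rintro _ ⟨y, hy, v, rfl⟩
  rw [zero_add, L1, Submodule.mem_span_pair] at hy
  obtain ⟨a, b, rfl⟩ := hy
  rw [ι_eq, br_lin]
  rw [SetLike.mem_coe, Submodule.mem_span_singleton]
  refine ⟨a * v 1 - b * v 0, ?_⟩
  rw [c]
  module

omit hω [CharP F 2] in
theorem L3 : LiePow F (Fin 2 → F) 3 ≤ Submodule.span F {f0 F, f1 F} := by
  rw [LiePow, Submodule.span_le]
  rintro _ ⟨y, hy, v, rfl⟩
  have hy' := L2 hy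
  rw [Submodule.mem_span_singleton] at hy'
  obtain ⟨a, rfl⟩ := hy'
  have e := br_lin (c F) 0 (X F) (Y F) a 0 (v 0) (v 1)
  simp only [smul_zero, add_zero, zero_mul, mul_zero, sub_zero] at e
  rw [ι_eq, e, SetLike.mem_coe, Submodule.mem_span_pair]
  exact ⟨a * v 0, a * v 1, rfl⟩

omit hω [CharP F 2] in
theorem L4 : LiePow F (Fin 2 → F) 4 ≤ Submodule.span F {p F, q F, r F} := by
  rw [LiePow, Submodule.span_le]
  rintro _ ⟨y, hy, v, rfl⟩
  have hy' := L3 hy
  rw [Submodule.mem_span_pair] at hy'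
  obtain ⟨a, b, rfl⟩ := hy'
  rw [ι_eq, br4, SetLike.mem_coe, Submodule.mem_span_triple]
  exact ⟨_, _, _, rfl⟩

omit hω [CharP F 2] in
theorem mem_X (x : TensorAlgebra F (Fin 2 → F)) (k : ℕ) (hx : x ∈ LiePow F (Fin 2 → F) (k + 1)) :
    x * X F - X F * x ∈ LiePow F (Fin 2 → F) (k + 2) := mem_two x _ k hx

omit hω [CharP F 2] in
theorem mem_Y (x : TensorAlgebra F (Fin 2 → F)) (k : ℕ) (hx : x ∈ LiePow F (Fin 2 → F) (k + 1)) :
    x * Y F - Y F * x ∈ LiePow F (Fin 2 → F) (k + 2) := mem_two x _ k hx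

omit hω [CharP F 2] in
theorem c_mem : c F ∈ LiePow F (Fin 2 → F) 2 := mem_Y _ 0 (by
  rw [zero_add, L1]; exact Submodule.subset_span (by simp))

omit hω [CharP F 2] in
theorem p_mem : p F ∈ LiePow F (Fin 2 → F) 4 := mem_X _ 2 (mem_X _ 1 c_mem)

omit hω [CharP F 2] in
theorem r_mem : r F ∈ LiePow F (Fin 2 → F) 4 := mem_Y _ 2 (mem_Y _ 1 c_mem)

omit hω [CharP F 2] in
theorem W5_le : Submodule.span F {s0 F, s1 F, s2 F, s3 F} ≤ LiePow F (Fin 2 → F) 5 := by
  rw [Submodule.span_le]
  intro x hx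
  simp only [Set.mem_insert_iff, Set.mem_singleton_iff] at hx
  rcases hx with rfl | rfl | rfl | rfl
  · exact mem_X _ 3 p_mem
  · exact mem_Y _ 3 p_mem
  · exact mem_X _ 3 r_mem
  · exact mem_Y _ 3 r_mem

omit hω in
theorem stable_P (K : Subgroup (LinearMap.GeneralLinearGroup F (Fin 2 → F))) :
    IsStable K (Submodule.span F {p F, r F}) := by
  intro g _ x hx
  obtain ⟨a, b, rfl⟩ := Submodule.mem_span_pair.1 hx
  obtain ⟨α, β, γ, δ, h, rfl⟩ := exists_G g
  have m0 : p F ∈ Submodule.span F {p F, r F} := Submodule.subset_span (by simp)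
  have m1 : r F ∈ Submodule.span F {p F, r F} := Submodule.subset_span (by simp)
  simp only [map_add, map_smul, act_p, act_r]
  exact Submodule.add_mem _ (Submodule.smul_mem _ _ (Submodule.smul_mem _ _ (Submodule.add_mem _
      (Submodule.smul_mem _ _ m0) (Submodule.smul_mem _ _ m1))))
      (Submodule.smul_mem _ _ (Submodule.smul_mem _ _ (Submodule.add_mem _
      (Submodule.smul_mem _ _ m0) (Submodule.smul_mem _ _ m1))))

/-- Every nonzero `GL(V)`-submodule of `L^4 V` contains the submodule spanned by `p` and `r`. -/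
theorem P_le (U : Submodule F (TensorAlgebra F (Fin 2 → F))) (hU : IsStable ⊤ U)
    (hle : U ≤ LiePow F (Fin 2 → F) 4) (hne : U ≠ ⊥) : Submodule.span F {p F, r F} ≤ U := by
  obtain ⟨x, hx, hx0⟩ := U.exists_mem_ne_zero_of_ne_bot hne
  obtain ⟨a, b, d, rfl⟩ := Submodule.mem_span_triple.1 (L4 (hle hx))
  have hr : r F ∈ U := by
    by_cases hab : a ≠ 0 ∨ b ≠ 0
    · obtain ⟨t, ht⟩ := exists_t hω a b hab
      have h1 := U.sub_mem (hU (u t) (Subgroup.mem_top _) _ hx) hx
      have e : act (u t) (a • p F + b • q F + d • r F) - (a • p F + b • q F + d • r F) =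
          (t ^ 2 * a + t * b) • r F := by
        simp only [map_add, map_smul, u, act_p, act_q, act_r]
        simp only [mul_zero, mul_one, zero_mul, sub_zero, one_smul, zero_smul, add_zero,
          zero_add, one_pow, ne_eq, OfNat.ofNat_ne_zero, not_false_eq_true, zero_pow]
        module
      rw [e] at h1
      exact (Submodule.smul_mem_iff U ht).1 h1
    · push Not at hab
      obtain ⟨rfl, rfl⟩ := hab
      simp only [zero_smul, zero_add] at hx hx0
      have hd : d ≠ 0 := fun hd => hx0 (by rw [hd, zero_smul])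
      exact (Submodule.smul_mem_iff U hd).1 hx
  have hp : p F ∈ U := by
    rw [← sw_r]
    exact hU _ (Subgroup.mem_top _) _ hr
  rw [Submodule.span_le]
  intro z hz
  simp only [Set.mem_insert_iff, Set.mem_singleton_iff] at hz
  rcases hz with rfl | rfl
  · exact hp
  · exact hr

/-- the condition `(∗_5)` -/
theorem star5 : Star (H F) 5 := by
  intro k hk1 hk5 W hW hirr
  refine ⟨fun g _ x hx => hirr.1 g (Subgroup.mem_top _) x hx, hirr.2.1, ?_⟩
  intro U hUW hU
  by_cases hne : U = ⊥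
  · exact Or.inl hne
  right
  apply le_antisymm hUW
  have hk : k = 1 ∨ k = 2 ∨ k = 3 ∨ k = 4 := by omega
  rcases hk with rfl | rfl | rfl | rfl
  · refine le_trans ?_ (two_dim (Dg ω hω) (Dg_mem hω) (X F) (Y F) ω 1 (ω1 hω) ?_ ?_ sw_X sw_Y U hU
      (by rw [← L1]; exact hUW.trans hW) hne)
    · rw [← L1]; exact hW
    · rw [Dg, act_X]; simp
    · rw [Dg, act_Y]; simp
  · obtain ⟨x, hx, hx0⟩ := U.exists_mem_ne_zero_of_ne_bot hne
    obtain ⟨a, rfl⟩ := Submodule.mem_span_singleton.1 (L2 (hW (hUW hx)))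
    have ha : a ≠ 0 := fun ha => hx0 (by rw [ha, zero_smul])
    have hc : c F ∈ U := (Submodule.smul_mem_iff U ha).1 hx
    refine (hW.trans L2).trans ?_
    rw [Submodule.span_le, Set.singleton_subset_iff]
    exact hc
  · refine le_trans (hW.trans L3) (two_dim (Dg ω hω) (Dg_mem hω) (f0 F) (f1 F) (ω * ω) ω ?_ ?_ ?_
      sw_f0 sw_f1 U hU ((hUW.trans hW).trans L3) hne)
    · intro h
      apply ω1 hω
      exact mul_left_cancel₀ (ω0 hω) (by rw [h, mul_one])
    · rw [Dg, act_f0]; simp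
    · rw [Dg, act_f1]; simp
  · have hP : Submodule.span F {p F, r F} = W := by
      rcases hirr.2.2 _ (P_le hω W hirr.1 hW hirr.2.1) (stable_P ⊤) with h | h
      · exfalso
        have m1 : r F ∈ Submodule.span F {p F, r F} := Submodule.subset_span (by simp)
        rw [h, Submodule.mem_bot] at m1
        exact r_ne m1
      · exact h
    rw [← hP] at hUW ⊢
    refine two_dim (Dg ω hω) (Dg_mem hω) (p F) (r F) 1 ω (Ne.symm (ω1 hω)) ?_ ?_
      sw_p sw_r U hU hUW hne
    · rw [Dg, act_p]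
      simp only [mul_zero, mul_one, sub_zero, ne_eq, OfNat.ofNat_ne_zero, not_false_eq_true,
        zero_pow, zero_smul, add_zero, smul_smul]
      rw [show ω * ω ^ 2 = ω ^ 3 by ring, ω3 hω]
    · rw [Dg, act_r]; simp

omit hω in
theorem stable_U1 : IsStable (H F) (Submodule.span F {s0 F, s3 F}) := by
  intro g hg x hx
  obtain ⟨a, b, rfl⟩ := Submodule.mem_span_pair.1 hx
  obtain ⟨α, β, γ, δ, h, rfl⟩ := exists_G g
  simp only [map_add, map_smul, act_s0, act_s3]
  rw [Submodule.mem_span_pair]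
  rcases (mem_H _ _ _ _ _).1 hg with ⟨rfl, rfl⟩ | ⟨rfl, rfl⟩
  · refine ⟨a * ((α * δ - 0 * 0) * (α ^ 2 * α)), b * ((α * δ - 0 * 0) * (δ ^ 2 * δ)), ?_⟩
    module
  · refine ⟨b * ((0 * 0 - β * γ) * (β ^ 2 * β)), a * ((0 * 0 - β * γ) * (γ ^ 2 * γ)), ?_⟩
    module

omit hω in
theorem stable_U2 : IsStable (H F) (Submodule.span F {s1 F, s2 F}) := by
  intro g hg x hx
  obtain ⟨a, b, rfl⟩ := Submodule.mem_span_pair.1 hx
  obtain ⟨α, β, γ, δ, h, rfl⟩ := exists_G g
  simp only [map_add, map_smul, act_s1, act_s2]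
  rw [Submodule.mem_span_pair]
  rcases (mem_H _ _ _ _ _).1 hg with ⟨rfl, rfl⟩ | ⟨rfl, rfl⟩
  · refine ⟨a * ((α * δ - 0 * 0) * (α ^ 2 * δ)), b * ((α * δ - 0 * 0) * (δ ^ 2 * α)), ?_⟩
    module
  · refine ⟨b * ((0 * 0 - β * γ) * (β ^ 2 * γ)), a * ((0 * 0 - β * γ) * (γ ^ 2 * β)), ?_⟩
    module

theorem s1_not : s1 F ∉ Submodule.span F {s0 F, s3 F} := by
  intro h
  obtain ⟨a, b, e⟩ := Submodule.mem_span_pair.1 h
  have := coeff_bc hω a (-1) 0 b (by rw [← e]; module)
  exact neg_ne_zero.2 one_ne_zero this.2.1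

theorem s3_not : s3 F ∉ Submodule.span F {s1 F, s2 F} := by
  intro h
  obtain ⟨a, b, e⟩ := Submodule.mem_span_pair.1 h
  have := coeff_bc hω 0 a b (-1) (by rw [← e]; module)
  exact neg_ne_zero.2 one_ne_zero this.2.2.2

theorem not_uniserial : ¬ Uniserial (H F) (LiePow F (Fin 2 → F) 5) := by
  intro h
  have h1 : Submodule.span F {s0 F, s3 F} ≤ LiePow F (Fin 2 → F) 5 :=
    (Submodule.span_mono (by intro x; simp; tauto)).trans W5_le
  have h2 : Submodule.span F {s1 F, s2 F} ≤ LiePow F (Fin 2 → F) 5 :=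
    (Submodule.span_mono (by intro x; simp; tauto)).trans W5_le
  rcases h _ h1 _ h2 stable_U1 stable_U2 with h3 | h3
  · exact s3_not hω (h3 (Submodule.subset_span (by simp)))
  · exact s1_not hω (h3 (Submodule.subset_span (by simp)))

theorem not_star6 (m : ℕ) (hm : 5 < m) : ¬ Star (H F) m := by
  intro h
  have h1 := h 5 (by norm_num) (by omega) _ W5_le (irred_W5 hω)
  rcases h1.2.2 (Submodule.span F {s0 F, s3 F}) (Submodule.span_mono (by intro x; simp; tauto))
    stable_U1 with h2 | h2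
  · have m3 : s3 F ∈ Submodule.span F {s0 F, s3 F} := Submodule.subset_span (by simp)
    rw [h2, Submodule.mem_bot] at m3
    exact s3_ne m3
  · apply s1_not hω
    rw [h2]
    exact Submodule.subset_span (by simp)


end four

section norm

variable [Fintype F] [DecidableEq F]

omit [CharP F 2] [Fintype F] [DecidableEq F] in
theorem G_congr {a b c' d a' b' c'' d' : F} (h : a * d - b * c' ≠ 0)
    (ha : a = a') (hb : b = b') (hc : c' = c'') (hd : d = d') :
    G a b c' d h = G a' b' c'' d' (by rwa [← ha, ← hb, ← hc, ← hd]) := by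
  subst ha hb hc hd
  rfl

omit [CharP F 2] [Fintype F] [DecidableEq F] in
theorem unit_ne (x : Fˣ × Fˣ) : (x.1 : F) * x.2 ≠ 0 := mul_ne_zero x.1.ne_zero x.2.ne_zero

/-- diagonal elements -/
noncomputable def DG (x : Fˣ × Fˣ) : LinearMap.GeneralLinearGroup F (Fin 2 → F) :=
  G x.1 0 0 x.2 (by simp)

/-- antidiagonal elements -/
noncomputable def AG (x : Fˣ × Fˣ) : LinearMap.GeneralLinearGroup F (Fin 2 → F) :=
  G 0 x.1 x.2 0 (by simp)

omit [CharP F 2] [Fintype F] [DecidableEq F] in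
theorem DG_mem (x : Fˣ × Fˣ) : DG x ∈ H F := (mem_H _ _ _ _ _).2 (Or.inl ⟨rfl, rfl⟩)
omit [CharP F 2] [Fintype F] [DecidableEq F] in
theorem AG_mem (x : Fˣ × Fˣ) : AG x ∈ H F := (mem_H _ _ _ _ _).2 (Or.inr ⟨rfl, rfl⟩)

omit [CharP F 2] [Fintype F] [DecidableEq F] in
theorem DG_DG (x y : Fˣ × Fˣ) : DG x * DG y = DG (x.1 * y.1, x.2 * y.2) := by
  simp only [DG]
  rw [G_mul]
  apply G_congr <;> simp

omit [CharP F 2] [Fintype F] [DecidableEq F] in
theorem DG_AG (x y : Fˣ × Fˣ) : DG x * AG y = AG (x.1 * y.1, x.2 * y.2) := by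
  simp only [DG, AG]
  rw [G_mul]
  apply G_congr <;> simp

omit [CharP F 2] [Fintype F] [DecidableEq F] in
theorem AG_DG (x y : Fˣ × Fˣ) : AG x * DG y = AG (x.1 * y.2, x.2 * y.1) := by
  simp only [DG, AG]
  rw [G_mul]
  apply G_congr <;> simp

omit [CharP F 2] [Fintype F] [DecidableEq F] in
theorem AG_AG (x y : Fˣ × Fˣ) : AG x * AG y = DG (x.1 * y.2, x.2 * y.1) := by
  simp only [DG, AG]
  rw [G_mul]
  apply G_congr <;> simp

/-- the twisted norm map of the monomial group -/
noncomputable def N (F : Type u) [Field F] [Fintype F] [DecidableEq F] :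
    TensorAlgebra F (Fin 2 → F) →ₗ[F] TensorAlgebra F (Fin 2 → F) :=
  ∑ x : Fˣ × Fˣ, ((x.1 : F) * x.2)⁻¹ • ((act (DG x)).toLinearMap + (act (AG x)).toLinearMap)

omit [CharP F 2] in
theorem N_apply (z : TensorAlgebra F (Fin 2 → F)) :
    N F z = ∑ x : Fˣ × Fˣ, ((x.1 : F) * x.2)⁻¹ • (act (DG x) z + act (AG x) z) := by
  simp [N, LinearMap.sum_apply]

omit [CharP F 2] in
theorem DG_N (y : Fˣ × Fˣ) (z : TensorAlgebra F (Fin 2 → F)) :
    act (DG y) (N F z) = ((y.1 : F) * y.2) • N F z := by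
  rw [N_apply, map_sum, Finset.smul_sum]
  refine Fintype.sum_equiv (Equiv.prodCongr (Equiv.mulLeft y.1) (Equiv.mulLeft y.2)) _ _ ?_
  intro x
  rw [map_smul, map_add, ← act_mul, ← act_mul, DG_DG, DG_AG, smul_smul]
  congr 1
  have h1 := y.1.ne_zero
  have h2 := y.2.ne_zero
  have h3 := x.1.ne_zero
  have h4 := x.2.ne_zero
  simp only [Equiv.prodCongr_apply, Prod.map_fst, Prod.map_snd, Equiv.coe_mulLeft, Units.val_mul]
  field_simp

omit [CharP F 2] in
theorem AG_N (y : Fˣ × Fˣ) (z : TensorAlgebra F (Fin 2 → F)) :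
    act (AG y) (N F z) = ((y.1 : F) * y.2) • N F z := by
  rw [N_apply, map_sum, Finset.smul_sum]
  refine Fintype.sum_equiv ((Equiv.prodComm Fˣ Fˣ).trans
    (Equiv.prodCongr (Equiv.mulLeft y.1) (Equiv.mulLeft y.2))) _ _ ?_
  intro x
  rw [map_smul, map_add, ← act_mul, ← act_mul, AG_DG, AG_AG, smul_smul, add_comm]
  have h1 := y.1.ne_zero
  have h2 := y.2.ne_zero
  have h3 := x.1.ne_zero
  have h4 := x.2.ne_zero
  simp only [Equiv.trans_apply, Equiv.prodComm_apply, Prod.swap, Equiv.prodCongr_apply,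
    Prod.map_apply, Equiv.coe_mulLeft, Units.val_mul]
  congr 1
  field_simp

omit [CharP F 2] [Fintype F] [DecidableEq F] in
theorem mem_H_iff (g : LinearMap.GeneralLinearGroup F (Fin 2 → F)) (hg : g ∈ H F) :
    ∃ y : Fˣ × Fˣ, g = DG y ∨ g = AG y := by
  obtain ⟨a, b, c', d, h, rfl⟩ := exists_G g
  rcases (mem_H _ _ _ _ _).1 hg with ⟨rfl, rfl⟩ | ⟨rfl, rfl⟩
  · have had : a * d ≠ 0 := by simpa using h
    exact ⟨(Units.mk0 a (left_ne_zero_of_mul had), Units.mk0 d (right_ne_zero_of_mul had)),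
      Or.inl rfl⟩
  · have had : b * c' ≠ 0 := by simpa using h
    exact ⟨(Units.mk0 b (left_ne_zero_of_mul had), Units.mk0 c' (right_ne_zero_of_mul had)),
      Or.inr rfl⟩

/-- `N` kills every irreducible `H`-submodule. -/
theorem N_irred (S : Submodule F (TensorAlgebra F (Fin 2 → F))) (hS : IsIrred (H F) S)
    (x : TensorAlgebra F (Fin 2 → F)) (hx : x ∈ S) : N F x = 0 := by
  by_contra hne
  have hNS : N F x ∈ S := by
    rw [N_apply]
    exact Submodule.sum_mem _ fun y _ => S.smul_mem _ (S.add_mem (hS.1 _ (DG_mem y) _ hx)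
      (hS.1 _ (AG_mem y) _ hx))
  have hst : IsStable (H F) (Submodule.span F {N F x}) := by
    intro g hg z hz
    obtain ⟨a, rfl⟩ := Submodule.mem_span_singleton.1 hz
    rw [Submodule.mem_span_singleton, map_smul]
    obtain ⟨y, rfl | rfl⟩ := mem_H_iff g hg
    · exact ⟨a * (y.1 * y.2), by rw [DG_N, smul_smul]⟩
    · exact ⟨a * (y.1 * y.2), by rw [AG_N, smul_smul]⟩
  rcases hS.2.2 _ (by rwa [Submodule.span_le, Set.singleton_subset_iff]) hst with h | h
  · rw [Submodule.span_singleton_eq_bot] at h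
    exact hne h
  · rw [← h] at hx
    obtain ⟨l, hl⟩ := Submodule.mem_span_singleton.1 hx
    apply hne
    rw [N_apply]
    apply Finset.sum_eq_zero
    intro y _
    rw [← hl, map_smul, map_smul, DG_N, AG_N]
    have e : l • ((y.1 : F) * y.2) • N F x + l • ((y.1 : F) * y.2) • N F x =
      (2 : F) • l • ((y.1 : F) * y.2) • N F x := by module
    rw [e, two0, zero_smul, smul_zero]

theorem N_s0 (hF : Fintype.card F = 4) : N F (s0 F) = s0 F + s3 F := by
  have hu (t : Fˣ) : (t : F) ^ 2 * t = 1 := by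
    have := FiniteField.pow_card_sub_one_eq_one (t : F) t.ne_zero
    rw [hF] at this
    rw [← this]
    ring
  rw [N_apply]
  have h1 : ∀ x : Fˣ × Fˣ, ((x.1 : F) * x.2)⁻¹ • (act (DG x) (s0 F) + act (AG x) (s0 F)) =
      s0 F + s3 F := by
    intro x
    have hne : (x.1 : F) * x.2 ≠ 0 := unit_ne x
    rw [DG, AG, act_s0, act_s0]
    simp only [mul_zero, zero_mul, sub_zero, zero_sub, ne_eq, OfNat.ofNat_ne_zero,
      not_false_eq_true, zero_pow, zero_smul, add_zero, zero_add, hu, one_smul]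
    have e : -((x.1 : F) * x.2) = (x.1 : F) * x.2 := by
      linear_combination (-(x.1 : F) * x.2) * two0 (F := F)
    rw [e, smul_add, smul_smul, smul_smul, inv_mul_cancel₀ hne, one_smul, one_smul]
  rw [Finset.sum_congr rfl (fun x _ => h1 x), Finset.sum_const, Finset.card_univ,
    Fintype.card_prod, Fintype.card_units, hF]
  have h9 : ((9 : ℕ) : F) = 1 := by
    push_cast
    linear_combination 4 * two0 (F := F)
  rw [← Nat.cast_smul_eq_nsmul F, show (4 - 1) * (4 - 1) = 9 from rfl, h9, one_smul]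

theorem not_cr (hF : Fintype.card F = 4) {ω : F} (hω : ω ^ 2 + ω + 1 = 0) :
    ¬ CompletelyReducible (H F) (LiePow F (Fin 2 → F) 5) := by
  rintro ⟨I, hI, -, hsup⟩
  have hle : LiePow F (Fin 2 → F) 5 ≤ LinearMap.ker (N F) := by
    rw [← hsup]
    apply sSup_le
    intro S hS x hx
    rw [LinearMap.mem_ker]
    exact N_irred S (hI S hS) x hx
  have h0 : s0 F ∈ LinearMap.ker (N F) := hle (W5_le (Submodule.subset_span (by simp)))
  rw [LinearMap.mem_ker, N_s0 hF] at h0
  have := coeff_a hω 1 0 0 1 (by rw [← h0]; module)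
  exact one_ne_zero this

end norm


end char2

end concrete

/-- **MP_a1df92_al, Q1 (negative answer).** There are a finite field `F`, a finite-dimensional
vector space `V`, a maximal subgroup `H` of `GL(V)` and an integer `n ≥ 1`, the largest one with
`(∗_n)`, such that `L^n V` is, as an `FH`-module, neither completely reducible nor uniserial. -/
theorem result :
    ∃ (F : Type) (_ : Field F) (_ : Finite F) (V : Type) (_ : AddCommGroup V) (_ : Module F V)
      (_ : FiniteDimensional F V) (H : Subgroup (LinearMap.GeneralLinearGroup F V)) (n : ℕ),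
      IsCoatom H ∧ 1 ≤ n ∧ Star H n ∧ (∀ m, n < m → ¬ Star H m) ∧
      ¬ CompletelyReducible H (LiePow F V n) ∧ ¬ Uniserial H (LiePow F V n) := by
  classical
  let F := GaloisField 2 2
  have : Fact (Nat.Prime 2) := ⟨Nat.prime_two⟩
  have : Finite F := inferInstance
  let _ : Fintype F := Fintype.ofFinite F
  have hcard : Fintype.card F = 4 := by
    rw [← Nat.card_eq_fintype_card]
    have := GaloisField.card 2 2 (by norm_num)
    simpa using this
  have hω : ∃ ω : F, ω ^ 2 + ω + 1 = 0 := by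
    obtain ⟨ω, hω⟩ : ∃ ω : F, ω ∉ ({0, 1} : Finset F) := by
      by_contra h
      push Not at h
      have h1 : (Finset.univ : Finset F) ⊆ {0, 1} := fun x _ => h x
      have h2 := Finset.card_le_card h1
      rw [Finset.card_univ, hcard] at h2
      have h3 := Finset.card_le_two (a := (0 : F)) (b := 1)
      omega
    simp only [Finset.mem_insert, Finset.mem_singleton, not_or] at hω
    refine ⟨ω, ?_⟩
    have h3 := FiniteField.pow_card_sub_one_eq_one ω hω.1
    rw [hcard] at h3
    have h4 : (ω - 1) * (ω ^ 2 + ω + 1) = 0 := by linear_combination h3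
    exact (mul_eq_zero.1 h4).resolve_left (sub_ne_zero.2 hω.2)
  obtain ⟨ω, hω⟩ := hω
  exact ⟨F, inferInstance, inferInstance, Fin 2 → F, inferInstance, inferInstance, inferInstance,
    H F, 5, isCoatom_H, by norm_num, star5 hω, not_star6 hω, not_cr hcard hω, not_uniserial hω⟩

end Pool.Agent.Results.MP_a1df92_al.NotUniserial
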